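import Pool.Agent.Helper56_MG.Base3
import Pool.Agent.Helper56_MG.Stmts

/-!
# Module PULL: preimages of free names under free functional relations
-/

open Set

namespace Pool.Agent.MG.H73

open Pool.Agent.MG

theorem Dep.const_fst {I : Type} [Idx I] {β : Sort*} {ρ ρ' : I} (f : Pt I → β) (h : Dep ρ f)
    (hρ : ρ ≤ ρ') : Dep ρ' f := fun y y' hy => h y y' fun i hi => hy i (lt_of_lt_of_le hi hρ)

/-- Module PULL. -/
theorem pullStmt {I : Type} [Idx I] (hRel : RelStmt) : PullStmt I := by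
  obtain ⟨hR1, hR2, -, -, -, -, -, -, hR9, -⟩ := hRel
  intro ρ1 ρ2
  induction ρ2 using WellFoundedLT.induction with
  | ind ρ2 ih =>
  intro hρ H0 hm hd hf hF G hG
  rw [Fr_iff]
  intro ε hε ht p hp
  rcases lt_or_ge ε ρ1 with h | h
  · obtain ⟨q, h1, h2, -, ρs, H, h3, h4⟩ := Fr.use hρ hF h ht hp
    refine ⟨q, h1, h2, ρs, H, h3, fun y hy x hx => ?_⟩
    obtain ⟨s, -, hs⟩ := hx
    exact h4 y hy x ⟨s, hs⟩
  · obtain ⟨q, h1, h2, ρs, H, h3, h4⟩ := (Fr_iff ρ2 G).1 hG ε hε ht p hp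
    refine ⟨q, h1, h2, fun k => max (ρs k) ρ1, fun k y => rcomp (H k y) (H0 y), fun k => ?_,
      fun y hy x hx => ?_⟩
    · obtain ⟨h5, h6, h7, h8, h9⟩ := h3 k
      have hpr : ∀ y, pr2 (rcomp (H k y) (H0 y)) =
          {x | ∃ s ∈ pr2 (H k y), (s, x) ∈ rb (H0 y)} := by
        intro y
        ext x
        constructor
        · rintro ⟨s, hs⟩
          obtain ⟨t, h10, h11⟩ := (hR1 _ _ _ _).1 hs
          exact ⟨t, ⟨s, h10⟩, h11⟩
        · rintro ⟨t, ⟨s, h10⟩, h11⟩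
          exact ⟨s, (hR1 _ _ _ _).2 ⟨t, h10, h11⟩⟩
      refine ⟨max_le h5 h, hR9.comp (h6.prodMk hm), ?_, fun y => hR2 _ _ (h8 y) (hf y), ?_⟩
      · intro y y' hy
        have e1 : H k y = H k y' := h7 y y' fun i hi => hy i (lt_max_of_lt_left hi)
        have e2 : H0 y = H0 y' := hd y y' fun i hi => hy i (lt_max_of_lt_right hi)
        simp only [e1, e2]
      · simp only [hpr]
        rcases le_or_gt ρ1 (ρs k) with h10 | h10
        · rw [max_eq_left h10]
          exact ih (ρs k) (lt_of_le_of_lt h5 hε) h10 H0 hm hd hf hF (fun y => pr2 (H k y)) h9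
        · rw [max_eq_right h10.le]
          refine Fr.sub hF fun y x hx => ?_
          obtain ⟨s, -, hs⟩ := hx
          exact ⟨s, hs⟩
    · obtain ⟨s, hs, hx⟩ := hx
      obtain ⟨k, hk⟩ := h4 y hy s hs
      exact ⟨k, (hR1 _ _ _ _).2 ⟨s, hk, hx⟩⟩

theorem pull {I : Type} [Idx I] (hRel : RelStmt) : PullStmt I := pullStmt hRel

end Pool.Agent.MG.H73
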