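import Pool.Agent.Helper56_MG.Base3
import Pool.Agent.Helper56_MG.Stmts

/-!
# Module RAISE: raising the rank of a free tree
-/

open Set

namespace Pool.Agent.MG.H73

open Pool.Agent.MG

variable {I : Type} [Idx I]

/-- A point of a condition lies on the tree, also outside of the support. -/
theorem mem_bS_of_body {p : Cond I} {y : Pt I} (hy : y ∈ p.body) (j : I) :
    y j ∈ bS (p.T j y) := by
  by_cases h : j ∈ p.S
  · exact (hy j h).1
  · rw [p.full' j h y]
    exact fun _ => trivial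

/-- A condition below `p` where the tree at the Sacks coordinate `i` is a free name. -/
theorem exists_free {β i : I} (hi : i < β) (ht : ty i = false) {p : Cond I} (hp : VB β p) :
    ∃ q, q ≤ p ∧ VB β q ∧ q.T i = p.T i ∧ ∃ (ρ : I) (T' : Pt I → Set Node), ρ ≤ i ∧
      Measurable T' ∧ Dep ρ T' ∧ Fr ρ (fun y => bS (T' y)) ∧
      ∀ y ∈ (q.restr i).body, q.T i y = T' y := by
  obtain ⟨p1, h1, h2, ρ', T', h3, h4, h5, h6, h7⟩ :=
    VB.lv hp ht (p.restr i) (VB.restr hp i) le_rfl
  have h8 : p1.restr i = p1 := (VB.below h2).restr_eq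
  have h9 : p1.restr i ≤ p.restr i := by rw [h8]; exact h1
  have h10 : (Cond.glue p1 p i).T i = p.T i := Cond.glue_T_ge p1 p le_rfl
  refine ⟨Cond.glue p1 p i, Cond.glue_le_right h9, VB.glue h2 hp hi.le h9, h10, ρ', T', h3, h4,
    h5, h6, fun y hy => ?_⟩
  rw [Cond.glue_restr p1 p le_rfl, h8] at hy
  rw [h10]
  exact h7 y hy

/-- RAISE from SGL. -/
theorem raise_of_sgl (hEv : EvStmt) (hPull : PullStmt I) {j : I} (_hj : ty j = false)
    (hs : Fr (nx j) (fun y : Pt I => {x | x = y j})) {i : I} (hi : ty i = false) (hji : j < i)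
    {β : I} (hβ : i < β) {p : Cond I} (hp : VB β p) : ∃ q, q ≤ p ∧ VB β q ∧ Rk q i j := by
  classical
  obtain ⟨q1, h1, h2, -, ρ0, T0, h4, h5, h6, h7, h8⟩ := exists_free hβ hi hp
  rcases lt_or_ge j ρ0 with h | h
  · exact ⟨q1, h1, h2, ρ0, T0, h, h4, h5, h6, h7, h8⟩
  · obtain ⟨ec, ev, hm1, hm2, hec, hev⟩ := hEv
    set T' : Pt I → Set Node := fun y => if Good false (T0 y) then ev (T0 y) (y j) else ∅ with hT'
    have hT'm : Measurable T' :=
      Measurable.ite ((measurableSet_good false).preimage h5)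
        (hm2.comp (h5.prodMk (measurable_pi_apply j))) measurable_const
    have hT'd : Dep (nx j) T' := by
      intro y y' hy
      have e1 : T0 y = T0 y' := h6 y y' fun k hk =>
        hy k (lt_of_lt_of_le hk (h.trans (lt_nx j).le))
      have e2 : y j = y' j := hy j (lt_nx j)
      simp only [hT', e1, e2]
    have hnx : nx j ≤ i := nx_le j i hji
    have hT'di : Dep i T' := fun y y' hy => hT'd y y' fun k hk => hy k (lt_of_lt_of_le hk hnx)
    have hF : Fr (nx j) (fun y => bS (T' y)) := by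
      have h9 := hPull ρ0 (nx j) (h.trans (lt_nx j).le) (fun y => ec (T0 y)) (hm1.comp h5)
        (fun y y' hy => by simp only [h6 y y' hy]) (fun y => (hec (T0 y)).1)
        (Fr.sub h7 fun y => (hec (T0 y)).2) (fun y => {x | x = y j}) hs
      refine Fr.sub h9 fun y x hx => ?_
      by_cases hg : Good false (T0 y)
      · have e : T' y = ev (T0 y) (y j) := by simp only [hT', if_pos hg]
        rw [e, (hev (T0 y) hg (y j)).2.2] at hx
        exact ⟨y j, rfl, hx⟩
      · have e : T' y = ∅ := by simp only [hT', if_neg hg]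
        rw [e] at hx
        exact absurd (hx 0) (by simp)
    have hgood : ∀ y ∈ (q1.restr i).body, Good (ty i) (T' y) ∧ T' y ⊆ q1.T i y := by
      intro y hy
      have hg : Good false (T0 y) := by
        rw [← h8 y hy, ← hi]
        exact q1.good i y
      have e : T' y = ev (T0 y) (y j) := by simp only [hT', if_pos hg]
      rw [e, h8 y hy, hi]
      exact ⟨(hev (T0 y) hg (y j)).1, (hev (T0 y) hg (y j)).2.1⟩
    refine ⟨q1.setT i T' hT'm hT'di, (Cond.setT_le q1 T' hT'm hT'di hgood).trans h1,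
      VB.setT h2 hβ T' hT'm hT'di hgood (fun _ => LV_of_Fr hnx hT'm hT'd hF fun _ _ => rfl),
      nx j, T', lt_nx j, hnx, hT'm, hT'd, hF, fun y hy => ?_⟩
    rw [Cond.setT_restr q1 T' hT'm hT'di le_rfl] at hy
    exact Cond.setT_T_self q1 T' hT'm hT'di (hgood y hy).1

/-- SGL. -/
theorem sgl (hRel : RelStmt) (hEv : EvStmt) (hPull : PullStmt I) (j : I) (hj : ty j = false) :
    Fr (nx j) (fun y : Pt I => {x | x = y j}) := by
  obtain ⟨-, -, -, -, -, -, hR7, hR8, -, -, -, -, -, hR14⟩ := hRel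
  induction j using WellFoundedLT.induction with
  | ind j ih =>
  rw [Fr_iff]
  intro ε hε ht p hp
  rcases eq_or_ne ε j with rfl | hne
  · obtain ⟨q1, h1, h2, -, ρ0, T0, h4, h5, h6, h7, h8⟩ := exists_free (lt_nx ε) hj hp
    refine ⟨q1, h1, h2, fun _ => ρ0, fun _ y => diag (T0 y), fun _ => ⟨h4, hR14.comp h5,
      fun y y' hy => by simp only [h6 y y' hy], fun y => hR8 _, ?_⟩, fun y hy x hx => ⟨0, ?_⟩⟩
    · refine Fr.sub h7 fun y x hx => ?_
      obtain ⟨s, hs⟩ := hx
      exact ((hR7 _ _ _).1 hs).2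
    · rw [hR7]
      have hx' : x = y ε := hx
      subst hx'
      refine ⟨rfl, ?_⟩
      rw [← h8 y (Cond.mem_restr_of_mem hy)]
      exact mem_bS_of_body hy ε
  · have hlt : ε < j := by
      rcases lt_trichotomy ε j with h | h | h
      · exact h
      · exact absurd h hne
      · exact absurd (nx_le j ε h) (not_le.2 hε)
    obtain ⟨q1, h1, h2, ρ, T', h3, h4, h5, h6, h7, h8⟩ :=
      raise_of_sgl hEv hPull ht (ih ε hlt ht) hj hlt (lt_nx j) hp
    obtain ⟨q2, h9, h10, -, ρs, H, h11, h12⟩ :=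
      Fr.use (h4.trans (lt_nx j).le) h7 h3 ht h2
    refine ⟨q2, h9.trans h1, h10, ρs, H, h11, fun y hy x hx => h12 y hy x ?_⟩
    have hx' : x = y j := hx
    subst hx'
    rw [← h8 y (Cond.mem_restr_of_mem (h9 hy))]
    exact mem_bS_of_body (h9 hy) j

/-- Module RAISE. -/
theorem raiseStmt (hRel : RelStmt) (hEv : EvStmt) (hPull : PullStmt I) : RaiseStmt I :=
  ⟨fun j hj => sgl hRel hEv hPull j hj, fun _ hi _ hj hji _ hβ _ hp =>
    raise_of_sgl hEv hPull hj (sgl hRel hEv hPull _ hj) hi hji hβ hp⟩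

theorem raise (hRel : RelStmt) (hEv : EvStmt) (hPull : PullStmt I) : RaiseStmt I :=
  raiseStmt hRel hEv hPull

end Pool.Agent.MG.H73
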