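import Pool.Agent.Helper56_MG.Base1
import Pool.Agent.Helper56_MG.Stmts

/-!
# Module REL: closed relations
-/

open Set

namespace Pool.Agent.MG.H73

open Pool.Agent.MG

theorem okp_pre {H : Set (Node × Node)} {s x : R} {n : ℕ} :
    okp H (pre s n) (pre x n) ↔ ∀ m, m ≤ n → (pre s m, pre x m) ∈ H := by
  unfold okp
  simp only [length_pre, true_and]
  constructor
  · intro h m hm
    have := h m hm
    rwa [take_pre s hm, take_pre x hm] at this
  · intro h m hm
    rw [take_pre s hm, take_pre x hm]
    exact h m hm

theorem okp_of_rb {H : Set (Node × Node)} {s x : R} (h : (s, x) ∈ rb H) (n : ℕ) :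
    okp H (pre s n) (pre x n) := okp_pre.2 fun m _ => h m

theorem mem_of_okp {H : Set (Node × Node)} {s x : R} {n : ℕ} (h : okp H (pre s n) (pre x n)) :
    (pre s n, pre x n) ∈ H := okp_pre.1 h n le_rfl

theorem okp.length_eq {H : Set (Node × Node)} {a c : Node} (h : okp H a c) :
    a.length = c.length := h.1

/-- Restriction of `okp` to shorter nodes. -/
theorem okp.take {H : Set (Node × Node)} {a c : Node} (h : okp H a c) (m : ℕ) :
    okp H (a.take m) (c.take m) := by
  refine ⟨by rw [List.length_take, List.length_take, h.1], fun n hn => ?_⟩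
  rw [List.length_take] at hn
  have h1 : n ≤ m := hn.trans (min_le_left _ _)
  have h2 : n ≤ a.length := hn.trans (min_le_right _ _)
  rw [List.take_take, List.take_take, min_eq_left h1]
  exact h.2 n h2

theorem okp.drop_last {H : Set (Node × Node)} {x : R} {b : Node} {a : Bool}
    (h : okp H (pre x (b ++ [a]).length) (b ++ [a])) : okp H (pre x b.length) b := by
  have h1 := okp.take h b.length
  rwa [take_pre x (by simp), List.take_left] at h1

theorem okp.drop_last' {H : Set (Node × Node)} {x : R} {b : Node} {a : Bool}
    (h : okp H (b ++ [a]) (pre x (b ++ [a]).length)) : okp H b (pre x b.length) := by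
  have h1 := okp.take h b.length
  rwa [take_pre x (by simp), List.take_left] at h1

theorem rcomp_iff (H G : Set (Node × Node)) (s x : R) :
    (s, x) ∈ rb (rcomp H G) ↔ ∃ t, (s, t) ∈ rb H ∧ (t, x) ∈ rb G := by
  constructor
  · intro h
    obtain ⟨t, ht⟩ := exists_branch_of_infinite
      {b | okp H (pre s b.length) b ∧ okp G b (pre x b.length)}
      (fun b a hb => ⟨okp.drop_last hb.1, okp.drop_last' hb.2⟩) (fun n => by
        obtain ⟨b, h1, h2⟩ := h n
        have hl : b.length = n := by
          have := h1.1
          rw [length_pre] at this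
          exact this.symm
        refine ⟨b, ⟨?_, ?_⟩, hl⟩
        · rw [hl]; exact h1
        · rw [hl]; exact h2)
    refine ⟨t, fun n => ?_, fun n => ?_⟩
    · have := (ht n).1
      rw [length_pre] at this
      exact mem_of_okp this
    · have := (ht n).2
      rw [length_pre] at this
      exact mem_of_okp this
  · rintro ⟨t, h1, h2⟩ n
    exact ⟨pre t n, okp_of_rb h1 n, okp_of_rb h2 n⟩

theorem prT1_iff (H : Set (Node × Node)) : bS (prT1 H) = {s | ∃ x, (s, x) ∈ rb H} := by
  ext s
  constructor
  · intro h
    obtain ⟨t, ht⟩ := exists_branch_of_infinite {b | okp H (pre s b.length) b}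
      (fun b a hb => okp.drop_last hb) (fun n => by
        obtain ⟨b, h1⟩ := h n
        have hl : b.length = n := by
          have := h1.1
          rw [length_pre] at this
          exact this.symm
        refine ⟨b, ?_, hl⟩
        change okp H (pre s b.length) b
        rw [hl]; exact h1)
    refine ⟨t, fun n => ?_⟩
    have : okp H (pre s (pre t n).length) (pre t n) := ht n
    rw [length_pre] at this
    exact mem_of_okp this
  · rintro ⟨t, h1⟩ n
    exact ⟨pre t n, okp_of_rb h1 n⟩

theorem prT2_iff (H : Set (Node × Node)) : bS (prT2 H) = {x | ∃ s, (s, x) ∈ rb H} := by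
  ext x
  constructor
  · intro h
    obtain ⟨t, ht⟩ := exists_branch_of_infinite {b | okp H b (pre x b.length)}
      (fun b a hb => okp.drop_last' hb) (fun n => by
        obtain ⟨b, h1⟩ := h n
        have hl : b.length = n := by
          have := h1.1
          rw [length_pre] at this
          exact this
        refine ⟨b, ?_, hl⟩
        change okp H b (pre x b.length)
        rw [hl]; exact h1)
    refine ⟨t, fun n => ?_⟩
    have : okp H (pre t n) (pre x (pre t n).length) := ht n
    rw [length_pre] at this
    exact mem_of_okp this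
  · rintro ⟨t, h1⟩ n
    exact ⟨pre t n, okp_of_rb h1 n⟩

theorem measurableSet_okp (a c : Node) : MeasurableSet {H : Set (Node × Node) | okp H a c} := by
  by_cases h : a.length = c.length
  · have e : {H : Set (Node × Node) | okp H a c} =
        ⋂ n : ℕ, {H | n ≤ a.length → (a.take n, c.take n) ∈ H} := by
      ext H
      simp [okp, h]
    rw [e]
    refine MeasurableSet.iInter fun n => ?_
    by_cases hn : n ≤ a.length
    · simpa [hn] using measurableSet_mem_pair (a.take n, c.take n)
    · simp [hn]
  · have e : {H : Set (Node × Node) | okp H a c} = ∅ := by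
      ext H
      simp [okp, h]
    rw [e]
    exact MeasurableSet.empty

theorem measurable_rcomp :
    Measurable (fun z : Set (Node × Node) × Set (Node × Node) => rcomp z.1 z.2) := by
  rw [measurable_pair_iff]
  rintro ⟨a, c⟩
  have e : {w : Set (Node × Node) × Set (Node × Node) | (a, c) ∈ rcomp w.1 w.2} =
      ⋃ b : Node, ({w | okp w.1 a b} ∩ {w | okp w.2 b c}) := by
    ext w
    simp [rcomp]
  rw [e]
  exact MeasurableSet.iUnion fun b =>
    (measurable_fst (measurableSet_okp a b)).inter (measurable_snd (measurableSet_okp b c))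

theorem measurable_prT1 : Measurable prT1 := by
  rw [measurable_node_iff]
  intro a
  have e : {H : Set (Node × Node) | a ∈ prT1 H} = ⋃ c : Node, {H | okp H a c} := by
    ext H
    simp [prT1]
  rw [e]
  exact MeasurableSet.iUnion fun c => measurableSet_okp a c

theorem measurable_prT2 : Measurable prT2 := by
  rw [measurable_node_iff]
  intro c
  have e : {H : Set (Node × Node) | c ∈ prT2 H} = ⋃ a : Node, {H | okp H a c} := by
    ext H
    simp [prT2]
  rw [e]
  exact MeasurableSet.iUnion fun a => measurableSet_okp a c

theorem measurable_on1 :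
    Measurable (fun z : Set (Node × Node) × Set Node => on1 z.1 z.2) := by
  rw [measurable_pair_iff]
  intro s
  exact (measurable_fst (measurableSet_mem_pair s)).inter
    (measurable_snd (measurableSet_mem_node s.1))

theorem measurable_on2 :
    Measurable (fun z : Set (Node × Node) × Set Node => on2 z.1 z.2) := by
  rw [measurable_pair_iff]
  intro s
  exact (measurable_fst (measurableSet_mem_pair s)).inter
    (measurable_snd (measurableSet_mem_node s.2))

theorem measurable_diag : Measurable diag := by
  rw [measurable_pair_iff]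
  intro s
  by_cases h : s.1 = s.2
  · have e : {w : Set Node | s ∈ diag w} = {w | s.1 ∈ w} := by
      ext w
      simp [diag, h]
    rw [e]
    exact measurableSet_mem_node s.1
  · have e : {w : Set Node | s ∈ diag w} = ∅ := by
      ext w
      simp [diag, h]
    rw [e]
    exact MeasurableSet.empty

theorem diag_iff (T : Set Node) (s x : R) : (s, x) ∈ rb (diag T) ↔ s = x ∧ x ∈ bS T := by
  constructor
  · intro h
    have e : s = x := eq_of_pre fun n => (h n).1
    refine ⟨e, fun n => ?_⟩
    have := (h n).2
    rwa [(h n).1] at this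
  · rintro ⟨rfl, h⟩ n
    exact ⟨rfl, h n⟩

/-- Module REL. -/
theorem relStmt : RelStmt := by
  refine ⟨rcomp_iff, ?_, prT1_iff, prT2_iff, ?_, ?_, diag_iff, ?_, measurable_rcomp,
    measurable_prT1, measurable_prT2, measurable_on1, measurable_on2, measurable_diag⟩
  · intro H G hH hG s s' x h h'
    obtain ⟨t, h1, h2⟩ := (rcomp_iff H G s x).1 h
    obtain ⟨t', h1', h2'⟩ := (rcomp_iff H G s' x).1 h'
    have e := hG t t' x h2 h2'
    subst e
    exact hH s s' t h1 h1'
  · intro H T s x
    exact ⟨fun h => ⟨fun n => (h n).1, fun n => (h n).2⟩, fun h n => ⟨h.1 n, h.2 n⟩⟩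
  · intro H T s x
    exact ⟨fun h => ⟨fun n => (h n).1, fun n => (h n).2⟩, fun h n => ⟨h.1 n, h.2 n⟩⟩
  · intro T s s' x h h'
    rw [((diag_iff T s x).1 h).1, ((diag_iff T s' x).1 h').1]

theorem rel : RelStmt := relStmt

end Pool.Agent.MG.H73
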