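import Pool.Agent.Helper56_MG.Base1
import Pool.Agent.Helper56_MG.Stmts

/-!
# Module FTM: trees of Miller systems
-/

open Set

namespace Pool.Agent.MG.H73

open Pool.Agent.MG

theorem z1_getElem {t u : Node} {k : ℕ} (h : z1 t k <+: u) :
    u[t.length + k]? = some true ∧ ∀ i, i < k → u[t.length + i]? = some false := by
  obtain ⟨v, rfl⟩ := h
  have e : z1 t k ++ v = t ++ (List.replicate k false ++ (true :: v)) := by
    simp [z1, List.append_assoc]
  rw [e]
  refine ⟨?_, fun i hi => ?_⟩
  · rw [List.getElem?_append_right (by omega)]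
    rw [List.getElem?_append_right (by simp)]
    simp
  · rw [List.getElem?_append_right (by omega)]
    rw [List.getElem?_append_left (by simpa using hi)]
    simp [hi]

theorem z1_inj {t u : Node} {j k : ℕ} (hj : z1 t j <+: u) (hk : z1 t k <+: u) : j = k := by
  rcases lt_trichotomy j k with h | h | h
  · have h1 := (z1_getElem hj).1
    have h2 := (z1_getElem hk).2 j h
    rw [h1] at h2
    simp at h2
  · exact h
  · have h1 := (z1_getElem hk).1
    have h2 := (z1_getElem hj).2 k h
    rw [h1] at h2
    simp at h2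

theorem z1_length (t : Node) (k : ℕ) : (z1 t k).length = t.length + k + 1 := by
  simp [z1]; omega

section

variable {s : List ℕ → Node} {m : List ℕ → ℕ → ℕ}

theorem s_prefix (hs : ∀ σ k, z1 (s σ) (m σ k) <+: s (σ ++ [k])) (τ : List ℕ) :
    ∀ σ, s σ <+: s (σ ++ τ) := by
  induction τ with
  | nil => intro σ; rw [List.append_nil]
  | cons a τ ih =>
    intro σ
    have h1 : s σ <+: z1 (s σ) (m σ a) := by
      unfold z1
      rw [List.append_assoc]
      exact List.prefix_append _ _
    have h2 := ih (σ ++ [a])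
    rw [List.append_assoc, List.singleton_append] at h2
    exact h1.trans ((hs σ a).trans h2)

theorem z1_prefix (hs : ∀ σ k, z1 (s σ) (m σ k) <+: s (σ ++ [k])) (σ τ : List ℕ) (a : ℕ) :
    z1 (s σ) (m σ a) <+: s (σ ++ a :: τ) := by
  have h2 := s_prefix hs τ (σ ++ [a])
  rw [List.append_assoc, List.singleton_append] at h2
  exact (hs σ a).trans h2

theorem prefix_of_s (hm : ∀ σ, StrictMono (m σ))
    (hs : ∀ σ k, z1 (s σ) (m σ k) <+: s (σ ++ [k])) (σ : List ℕ) :
    ∀ ρ τ, s (ρ ++ σ) <+: s (ρ ++ τ) → σ <+: τ := by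
  induction σ with
  | nil => intro ρ τ _; exact List.nil_prefix
  | cons a σ ih =>
    intro ρ τ h
    cases τ with
    | nil =>
      exfalso
      have h1 := (z1_prefix hs ρ σ a).length_le
      have h2 := h.length_le
      rw [List.append_nil] at h2
      rw [z1_length] at h1
      omega
    | cons b τ =>
      have h1 := (z1_prefix hs ρ σ a).trans h
      have h2 := z1_prefix hs ρ τ b
      have h3 := (hm ρ).injective (z1_inj h1 h2)
      subst h3
      have h4 := ih (ρ ++ [a]) τ (by
        rw [List.append_assoc, List.append_assoc, List.singleton_append, List.singleton_append]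
        exact h)
      exact (List.prefix_cons_inj a).2 h4

/-- One step along the branch. -/
theorem next (hm : ∀ σ, StrictMono (m σ)) (hs : ∀ σ k, z1 (s σ) (m σ k) <+: s (σ ++ [k]))
    {D : Set (List ℕ)} (hD : Big D) {x : R} (hx : x ∈ bd true (ftM s D)) {σ : List ℕ}
    (hσ : On (s σ) x) : ∃ k, σ ++ [k] ∈ D ∧ On (s (σ ++ [k])) x := by
  classical
  have hDdown : ∀ (τ σ' : List ℕ), σ' ++ τ ∈ D → σ' ∈ D := by
    intro τ
    induction τ using List.reverseRecOn with
    | nil => intro σ' h; rwa [List.append_nil] at h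
    | append_singleton τ a ih =>
      intro σ' h
      rw [← List.append_assoc] at h
      exact ih σ' (hD.down _ _ h)
  -- every long initial segment of `x` gives a proper extension of `σ`
  have key : ∀ n, (s σ).length < n → ∃ a τ, σ ++ a :: τ ∈ D ∧ pre x n <+: s (σ ++ a :: τ) := by
    intro n hn
    obtain ⟨τ, hτ, h1⟩ := hx.1 n
    have h2 : s σ <+: s τ := ((on_iff_prefix hn.le).1 hσ).trans h1
    have h3 : σ <+: τ := prefix_of_s hm hs σ [] τ (by simpa using h2)
    obtain ⟨τ', rfl⟩ := h3
    cases τ' with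
    | nil =>
      exfalso
      have := h1.length_le
      rw [List.append_nil, length_pre] at this
      omega
    | cons a τ' => exact ⟨a, τ', hτ, h1⟩
  -- the first one after `s σ`
  obtain ⟨k0, hk0, hk0'⟩ := hx.2 rfl (s σ).length
  have hn0 : (s σ).length < k0 + 1 := by omega
  obtain ⟨a, τ, h1, h2⟩ := key (k0 + 1) hn0
  -- all these extensions start with the same number
  have huniq : ∀ n, k0 + 1 ≤ n → ∀ b τ', pre x n <+: s (σ ++ b :: τ') → b = a := by
    intro n hn b τ' h3
    have h4 : pre x (k0 + 1) <+: s (σ ++ b :: τ') := (pre_isPrefix x hn).trans h3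
    have h5 := z1_prefix hs σ τ' b
    have h6 := z1_prefix hs σ τ a
    -- position of the first one
    have hone : ∀ c τ'', pre x (k0 + 1) <+: s (σ ++ c :: τ'') →
        (s σ).length + m σ c ≤ k0 := by
      intro c τ'' h7
      by_contra hcon
      push Not at hcon
      have h8 := (z1_getElem (z1_prefix hs σ τ'' c)).2 (k0 - (s σ).length) (by omega)
      have h9 : (s σ).length + (k0 - (s σ).length) = k0 := by omega
      rw [h9] at h8
      obtain ⟨v, hv⟩ := h7
      rw [← hv, List.getElem?_append_left (by rw [length_pre]; omega)] at h8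
      rw [List.getElem?_eq_getElem (by rw [length_pre]; omega), getElem_pre, hk0'] at h8
      simp at h8
    have hcomp : ∀ c τ'', pre x (k0 + 1) <+: s (σ ++ c :: τ'') →
        z1 (s σ) (m σ c) <+: pre x (k0 + 1) := by
      intro c τ'' h7
      refine List.prefix_of_prefix_length_le (z1_prefix hs σ τ'' c) h7 ?_
      rw [z1_length, length_pre]
      have := hone c τ'' h7
      omega
    exact (hm σ).injective (z1_inj (hcomp b τ' h4) (hcomp a τ h2))
  refine ⟨a, ?_, ?_⟩
  · refine hDdown τ (σ ++ [a]) ?_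
    rwa [List.append_assoc, List.singleton_append]
  · set n := max (k0 + 1) (s (σ ++ [a])).length with hn
    obtain ⟨b, τ', h3, h4⟩ := key n (lt_of_lt_of_le hn0 (le_max_left _ _))
    have hb := huniq n (le_max_left _ _) b τ' h4
    subst hb
    rw [on_iff_prefix (le_max_right (k0 + 1) _)]
    refine List.prefix_of_prefix_length_le ?_ h4 ?_
    · have := s_prefix hs τ' (σ ++ [b])
      rwa [List.append_assoc, List.singleton_append] at this
    · rw [length_pre]
      exact le_max_right _ _

theorem ini_succ (g : ℕ → ℕ) (n : ℕ) : ini g (n + 1) = ini g n ++ [g n] := by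
  simp [ini, List.range_succ]

/-- Module FTM. -/
theorem ftmStmt : FtMStmt := by
  refine ⟨?_, ?_⟩
  · intro s m D hD hm hs
    refine ⟨⟨⟨[], hD.nil, List.nil_prefix⟩, ?_, ?_⟩, ?_⟩
    · rintro t a ⟨σ, hσ, h⟩
      exact ⟨σ, hσ, (List.prefix_append t [a]).trans h⟩
    · rintro t ⟨σ, hσ, h⟩
      refine ⟨s σ, ⟨σ, hσ, List.prefix_rfl⟩, h, ?_⟩
      intro n
      obtain ⟨k, hk, hk'⟩ := hD.inf σ hσ n
      exact ⟨m σ k, hk.trans (hm σ).le_apply, σ ++ [k], hk', hs σ k⟩
    · intro x hx
      have hstep : ∀ σ : {σ : List ℕ // σ ∈ D ∧ On (s σ) x}, ∃ k, σ.1 ++ [k] ∈ D ∧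
          On (s (σ.1 ++ [k])) x := fun σ => next hm hs hD hx σ.2.2
      choose f hf using hstep
      have h0 : On (s []) x := by
        obtain ⟨τ, hτ, h1⟩ := hx.1 (s []).length
        rw [on_iff_prefix le_rfl]
        refine List.prefix_of_prefix_length_le (s_prefix hs τ []) h1 ?_
        rw [length_pre]
      let seq : ℕ → {σ : List ℕ // σ ∈ D ∧ On (s σ) x} := fun n =>
        Nat.rec ⟨[], hD.nil, h0⟩ (fun _ σ => ⟨σ.1 ++ [f σ], hf σ⟩) n
      have hseq : ∀ n, seq (n + 1) = ⟨(seq n).1 ++ [f (seq n)], hf (seq n)⟩ := fun n => rfl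
      refine ⟨fun n => f (seq n), ?_⟩
      have hini : ∀ n, ini (fun n => f (seq n)) n = (seq n).1 := by
        intro n
        induction n with
        | zero => rfl
        | succ n ih => rw [ini_succ, ih, hseq]
      intro n
      rw [hini]
      exact (seq n).2
  · intro Ω _ s D hs hD
    rw [measurable_node_iff]
    intro t
    have e : {w | t ∈ ftM (fun σ => s σ w) (D w)} =
        ⋃ σ : List ℕ, ({w | σ ∈ D w} ∩ {w | s σ w ∈ {u | t <+: u}}) := by
      ext w
      simp [ftM]
    rw [e]
    exact MeasurableSet.iUnion fun σ => (hD σ).inter ((hs σ).preimage _)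

end

theorem ftm : FtMStmt := ftmStmt

end Pool.Agent.MG.H73
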